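import Mathlib

namespace Pool.Agent.Results.MP_72c4d1_al.AffineOnly

/-- the lifted dihedral group -/
def Dsharp (n : ℕ) : Set (Equiv.Perm (ZMod n)) :=
  {π | ∃ u b : ℤ, IsUnit (u : ZMod n) ∧ u ^ 2 ≡ 1 [ZMOD ∏ p ∈ n.primeFactors, (p : ℤ)] ∧
    ∀ i, π i = u * i + b}

theorem result (n : ℕ) (hn : 5 ≤ n) (h6 : Nat.Coprime n 6) (σ : Equiv.Perm (ZMod n)) (N : ℕ)
    (hN : 2 ≤ N) (hcl : ∀ l : List (Equiv.Perm (ZMod n)), l.length = N →
      (∀ x ∈ l, ∃ h ∈ Dsharp n, x = σ * h) → ∃ h ∈ Dsharp n, l.prod = σ * h) :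
    ∃ a b : ZMod n, IsUnit a ∧ ∀ i, σ i = a * i + b := by
  have : NeZero n := ⟨by omega⟩
  obtain ⟨N, rfl⟩ : ∃ M, N = M + 2 := ⟨N - 2, by omega⟩
  have h1 : (1 : Equiv.Perm (ZMod n)) ∈ Dsharp n := ⟨1, 0, by simp, by simp, by simp⟩
  have key : ∀ h ∈ Dsharp n, ∃ u b : ZMod n, IsUnit u ∧ ∀ i, (σ * h * σ ^ N) i = u * i + b := by
    intro h hh
    obtain ⟨g, ⟨u, b, hu, -, hg⟩, e⟩ := hcl (σ :: (σ * h) :: List.replicate N σ) (by simp) (by
      intro x hx
      simp only [List.mem_cons, List.mem_replicate] at hx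
      rcases hx with rfl | rfl | ⟨-, rfl⟩
      exacts [⟨1, h1, by simp⟩, ⟨h, hh, rfl⟩, ⟨1, h1, by simp⟩])
    simp only [List.prod_cons, List.prod_replicate, mul_right_inj] at e
    exact ⟨u, b, hu, e ▸ hg⟩
  have key2 : ∀ h ∈ Dsharp n, ∃ u b : ZMod n, ∀ i, σ (h i) = u * σ i + b := by
    intro h hh
    obtain ⟨u, b, -, h2⟩ := key h hh
    obtain ⟨v, c, ⟨v, rfl⟩, h3⟩ := key 1 h1
    refine ⟨u * v⁻¹, b - u * v⁻¹ * c, fun i => ?_⟩
    obtain ⟨j, rfl⟩ := (σ ^ N).surjective i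
    have e2 : σ (h ((σ ^ N) j)) = _ := h2 j
    have e3 : σ ((σ ^ N) j) = _ := h3 j
    rw [e2, e3]
    linear_combination (-u * j) * v.inv_mul
  obtain ⟨t, ht⟩ : ∃ t : ZMod n, 2 * t = 1 := by
    have := (ZMod.unitOfCoprime 2 (Nat.Coprime.coprime_dvd_right (by norm_num) h6).symm).mul_inv
    exact ⟨_, by exact_mod_cast this⟩
  obtain ⟨u, b, hu⟩ := key2 (Equiv.neg _) ⟨-1, 0, by simp, by simp, by simp⟩
  obtain ⟨v, c, hv⟩ := key2 (Equiv.addRight t) ⟨1, (t.val : ℤ), by simp, by simp, by simp⟩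
  simp only [Equiv.neg_apply, Equiv.coe_addRight] at hu hv
  have hvu : IsUnit v := by
    obtain ⟨j, hj⟩ := σ.surjective (c + 1)
    have := hv (j - t)
    rw [sub_add_cancel, hj] at this
    exact IsUnit.of_mul_eq_one (σ (j - t)) (by linear_combination -this)
  have h4 : ∀ i, σ (i + 1) = σ i + (σ 1 - σ 0) := by
    have h5 : ∀ i, v * (u * σ (i + 1) + b) + c = u * (v * σ (i + 1) + c) + b - u * c - b
        + v * b + c := fun i => by ring
    have h6 : ∀ i, v * (u * σ (i + 1) + b) + c = u * (v * σ i + c) + b := fun i => by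
      rw [← hu, ← hv, ← hv, ← hu]
      congr 1
      linear_combination ht
    have huu : IsUnit u := by
      obtain ⟨j, hj⟩ := σ.surjective (b + 1)
      have := hu (-j)
      rw [neg_neg, hj] at this
      exact IsUnit.of_mul_eq_one (σ (-j)) (by linear_combination -this)
    intro i
    apply (hvu.mul huu).mul_left_cancel
    have h7 := h6 0
    rw [zero_add] at h7
    linear_combination h6 i - h7
  have h8 : ∀ k : ℕ, σ k = (σ 1 - σ 0) * k + σ 0 := by
    intro k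
    induction k with
    | zero => simp
    | succ k ih => push_cast; rw [h4, ih]; ring
  obtain ⟨j, hj⟩ := σ.surjective (σ 0 + 1)
  refine ⟨σ 1 - σ 0, σ 0, IsUnit.of_mul_eq_one j ?_, fun i => by simpa using h8 i.val⟩
  have := h8 j.val
  rw [ZMod.natCast_zmod_val, hj] at this
  linear_combination -this

end Pool.Agent.Results.MP_72c4d1_al.AffineOnly
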